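import Pool.Agent.W700.KK.Defs

/-!
KK-KL: the limit of a compact operator along the embeddings.
-/

set_option autoImplicit false

open Filter Topology Metric

namespace Pool.Agent.W308.KK.KL

open W700.KK

theorem main : W700.KK.S_KL := by
  intro Y _ _ D X _ _ P Z _ _ α S hS
  classical
  have hJ : ∀ n (y : Y) (h : y ∈ D.Yk n), P.J α n y = P.inj α n ⟨y, h⟩ := by
    intro n y h
    unfold XD.J
    rw [dif_pos h]
  have hev : ∀ k : ℕ, ∀ᶠ n in (hyperfilter ℕ : Filter ℕ), k ≤ n := by
    intro k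
    have h1 : (hyperfilter ℕ : Filter ℕ) ≤ atTop := by
      rw [← Nat.cofinite_eq_atTop]
      exact hyperfilter_le_cofinite
    exact h1 (eventually_ge_atTop k)
  -- existence of the limit
  have hlim : ∀ (k : ℕ) (y : Y), y ∈ D.Yk k → ∃ z : Z,
      Tendsto (fun n => S (P.J α n y)) (hyperfilter ℕ : Filter ℕ) (𝓝 z) := by
    intro k y hy
    have hK : IsCompact (closure (S '' closedBall (0 : X) (2 ^ k * ‖y‖))) :=
      hS.isCompact_closure_image_closedBall _
    have hin : ∀ᶠ n in (hyperfilter ℕ : Filter ℕ),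
        S (P.J α n y) ∈ closure (S '' closedBall (0 : X) (2 ^ k * ‖y‖)) := by
      filter_upwards [hev k] with n hn
      apply subset_closure
      refine ⟨P.J α n y, ?_, rfl⟩
      rw [mem_closedBall_zero_iff, hJ n y (D.mono hn hy)]
      apply P.norm_inj
      apply D.mono _ hy
      unfold AA
      omega
    obtain ⟨z, -, hz⟩ := hK.ultrafilter_le_nhds
      (Ultrafilter.map (fun n => S (P.J α n y)) (hyperfilter ℕ)) (by
        rw [Ultrafilter.coe_map, le_principal_iff]
        exact hin)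
    exact ⟨z, hz⟩
  -- the submodule
  have hdir : Directed (· ≤ ·) D.Yk := D.mono.directed_le
  set Yf : Submodule ℂ Y := ⨆ k, D.Yk k with hYf
  have hmem : ∀ y : Y, y ∈ Yf ↔ ∃ k, y ∈ D.Yk k := fun y =>
    Submodule.mem_iSup_of_directed _ hdir
  have hlim' : ∀ y : Yf, ∃ z : Z,
      Tendsto (fun n => S (P.J α n y)) (hyperfilter ℕ : Filter ℕ) (𝓝 z) := by
    intro y
    obtain ⟨k, hk⟩ := (hmem y).1 y.2
    exact hlim k y hk
  choose l hl using hlim'
  let L0 : Yf →ₗ[ℂ] Z :=
    { toFun := l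
      map_add' := by
        intro x y
        obtain ⟨k, hk⟩ := (hmem x).1 x.2
        obtain ⟨k', hk'⟩ := (hmem y).1 y.2
        refine tendsto_nhds_unique (hl (x + y)) (((hl x).add (hl y)).congr' ?_)
        filter_upwards [hev (max k k')] with n hn
        have h1 : (x : Y) ∈ D.Yk n := D.mono ((le_max_left _ _).trans hn) hk
        have h2 : (y : Y) ∈ D.Yk n := D.mono ((le_max_right _ _).trans hn) hk'
        have h3 : ((x + y : Yf) : Y) ∈ D.Yk n := (D.Yk n).add_mem h1 h2
        rw [hJ n _ h1, hJ n _ h2, hJ n _ h3, ← map_add, ← map_add]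
        rfl
      map_smul' := by
        intro c x
        obtain ⟨k, hk⟩ := (hmem x).1 x.2
        refine tendsto_nhds_unique (hl (c • x)) (((hl x).const_smul c).congr' ?_)
        filter_upwards [hev k] with n hn
        have h1 : (x : Y) ∈ D.Yk n := D.mono hn hk
        have h3 : ((c • x : Yf) : Y) ∈ D.Yk n := (D.Yk n).smul_mem c h1
        rw [hJ n _ h1, hJ n _ h3, ← map_smul, ← map_smul]
        rfl }
  obtain ⟨L, hL⟩ := L0.exists_extend
  refine ⟨L, fun k y hy => ?_⟩
  have hyf : y ∈ Yf := (hmem y).2 ⟨k, hy⟩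
  have h1 : L y = l ⟨y, hyf⟩ := by
    have := congrArg (fun g : Yf →ₗ[ℂ] Z => g ⟨y, hyf⟩) hL
    exact this
  rw [h1]
  exact hl ⟨y, hyf⟩

end Pool.Agent.W308.KK.KL
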