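import Pool.Agent.W700.KK.Defs

/-!
KK-KT: the functionals tend to zero uniformly on compact sets.
-/

set_option autoImplicit false

open Filter Topology Metric

namespace Pool.Agent.W308.KK.KT

theorem main : W700.KK.S_KT := by
  intro Y _ _ D d hd ε hε
  classical
  have hK : IsCompact (closure (d '' closedBall (0 : Y) 1)) :=
    hd.isCompact_closure_image_closedBall 1
  obtain ⟨t, -, htf, hcov⟩ := hK.finite_cover_balls (e := ε / 2) (by linarith)
  choose κ hκ using fun y : Y => D.f_tend y (ε / 2) (by linarith)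
  refine ⟨htf.toFinset.sup κ, fun k hk i => ?_⟩
  have key : ∀ x : Y, ‖x‖ ≤ 1 → ‖D.f k i (d x)‖ ≤ ε := by
    intro x hx
    have h1 : d x ∈ closure (d '' closedBall (0 : Y) 1) :=
      subset_closure ⟨x, by rwa [mem_closedBall_zero_iff], rfl⟩
    obtain ⟨z, hz, hdz⟩ := Set.mem_iUnion₂.1 (hcov h1)
    have h2 : κ z ≤ k := (Finset.le_sup (f := κ) (htf.mem_toFinset.2 hz)).trans hk
    have h3 := hκ z k h2 i
    have h4 : ‖D.f k i (d x - z)‖ ≤ ε / 2 := by
      calc ‖D.f k i (d x - z)‖ ≤ ‖D.f k i‖ * ‖d x - z‖ := (D.f k i).le_opNorm _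
        _ ≤ 1 * (ε / 2) := by
            apply mul_le_mul (D.norm_f k i) _ (norm_nonneg _) zero_le_one
            rw [mem_ball, dist_eq_norm] at hdz
            exact hdz.le
        _ = ε / 2 := one_mul _
    have h5 : D.f k i (d x) = D.f k i (d x - z) + D.f k i z := by
      rw [← map_add, sub_add_cancel]
    rw [h5]
    calc ‖D.f k i (d x - z) + D.f k i z‖ ≤ ‖D.f k i (d x - z)‖ + ‖D.f k i z‖ := norm_add_le _ _
      _ ≤ ε := by linarith
  refine ContinuousLinearMap.opNorm_le_bound _ hε.le fun x => ?_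
  rw [ContinuousLinearMap.comp_apply]
  by_cases hx : x = 0
  · rw [hx]; simp
  · have hn : 0 < ‖x‖ := norm_pos_iff.2 hx
    set c : ℂ := ((‖x‖⁻¹ : ℝ) : ℂ) with hc
    have h1 : ‖c • x‖ ≤ 1 := by
      rw [norm_smul, hc, Complex.norm_real, norm_inv, norm_norm, inv_mul_cancel₀ hn.ne']
    have h2 := key (c • x) h1
    rw [map_smul, map_smul, norm_smul, hc, Complex.norm_real, norm_inv, norm_norm,
      inv_mul_le_iff₀ hn] at h2
    linarith

end Pool.Agent.W308.KK.KT
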